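import Pool.Agent.Lib.MP_491cc4_lc.Cx.Main

set_option autoImplicit false

namespace Pool.Agent.Results.MP_491cc4_lc.Counterexample

open Pool.Agent.Lib.helper81 Pool.Agent.Lib.MP_fcebdf_lc Pool.Agent.Lib.MP_d4b40b_lc
open Pool.Agent.Lib.MP_491cc4_lc.Cx

/-- From an uncountable cardinal `c` which is `|L|`-supercompact for a Mahlo cardinal `|L| > c`:
a well-founded model of ZFC with a normal ultrafilter `U` on `k` and a `k`-complete ultrafilter
`V` on `k` which is Tukey below `U` and Rudin-Keisler below no finite Fubini power of `U`. -/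
theorem result (L : Type) (c : Cardinal.{0}) (h0 : Cardinal.aleph0 < c) (h1 : c < Cardinal.mk L)
    (h2 : Mahlo (Cardinal.mk L)) (W : Ultrafilter (Set L)) (h3 : SC c W) :
    ∃ (M : Type) (E : M → M → Prop), IsZF E ∧ Choice E ∧ WellFounded E ∧
      ∃ k U V, Normal E U k ∧ Ult E V k ∧ Cpl E V k k ∧ TukeyLE E V U ∧
        ∀ n, (∃ Z Y, FPow E U k n Z Y) ∧ ∀ Z Y, FPow E U k n Z Y → ¬ RKLE E V k Z Y :=
  main L c h0 h1 h2 W h3

end Pool.Agent.Results.MP_491cc4_lc.Counterexample
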