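import Pool.Agent.Lib.MP_491cc4_lc.Tree

set_option autoImplicit false

namespace Pool.Agent.Results.MP_491cc4_lc.Dichotomy

open Pool.Agent.Lib.MP_491cc4_lc

/-- Tukey order: a monotone map from `W` to `V` with cofinal image. -/
def TukeyLE {X Y : Type} (V : Ultrafilter X) (W : Ultrafilter Y) : Prop :=
  ∃ f : Set Y → Set X, (∀ A ∈ W, f A ∈ V) ∧ (∀ A ∈ W, ∀ B ∈ W, B ⊆ A → f B ⊆ f A) ∧
    ∀ C ∈ V, ∃ A ∈ W, f A ⊆ C

/-- Rudin-Keisler equivalence. -/
def RKEquiv {X Y : Type} (V : Ultrafilter X) (W : Ultrafilter Y) : Prop :=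
  (∃ g : Y → X, Ultrafilter.map g W = V) ∧ ∃ h : X → Y, Ultrafilter.map h V = W

/-- Fubini powers, on lists of length `n`. -/
noncomputable def fubiniPow {K : Type} (U : Ultrafilter K) : ℕ → Ultrafilter (List K)
  | 0 => pure []
  | n + 1 => U.bind (fun a => Ultrafilter.map (List.cons a) (fubiniPow U n))

theorem fubiniPow_eq {K : Type} (U : Ultrafilter K) (n : ℕ) : fubiniPow U n = Pw U n := by
  induction n with
  | zero => rfl
  | succ n ih => rw [Pw_succ, fubiniPow, ih]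

theorem tukeyLE_iff {K X : Type} (U : Ultrafilter K) (V : Ultrafilter X) :
    TukeyLE V U ↔ Tk U V := by
  classical
  constructor
  · rintro ⟨f, h1, h2, h3⟩
    refine ⟨fun B => if B ∈ U then f B else ∅, ?_, ?_, ?_⟩
    · intro A B hAB
      by_cases hA : A ∈ U
      · have hB : B ∈ U := Filter.mem_of_superset hA hAB
        simp only [hA, hB, if_true]
        exact h2 B hB A hA hAB
      · simp only [hA, if_false]
        exact Set.empty_subset _
    · intro B hB
      simp only [hB, if_true]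
      exact h1 B hB
    · intro A hA
      obtain ⟨B, hB, hBA⟩ := h3 A hA
      exact ⟨B, hB, by simpa only [hB, if_true] using hBA⟩
  · rintro ⟨f, hf⟩
    exact ⟨f, hf.mem, fun A _ B _ hBA => hf.mono B A hBA, hf.cof⟩

theorem result :
    ∀ (K : Type) [LinearOrder K] [WellFoundedLT K] (U : Ultrafilter K),
      Cardinal.aleph0 < Cardinal.mk K →
      (∀ x : K, Cardinal.mk (Set.Iio x) < Cardinal.mk K) →
      (∀ S : Set (Set K), Cardinal.mk S < Cardinal.mk K →
          (∀ s ∈ S, s ∈ U) → ⋂₀ S ∈ U) →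
      (∀ s : Set K, s ∈ U → Cardinal.mk s = Cardinal.mk K) →
      (∀ f : K → K, {x | f x < x} ∈ U → ∃ y : K, {x | f x = y} ∈ U) →
      ∀ (X : Type) (V : Ultrafilter X), TukeyLE V U →
        (∃ n : ℕ, RKEquiv V (fubiniPow U n)) ∨
        ∃ (W : List K → Ultrafilter X) (p : List K → X → K), W [] = V ∧ ∀ l : List K,
          TukeyLE (W l) U ∧ (¬ ∃ n : ℕ, RKEquiv (W l) (fubiniPow U n)) ∧
          W l = U.bind (fun a => W (a :: l)) ∧ {a | p l ⁻¹' {a} ∈ W (a :: l)} ∈ U := by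
  intro K _ _ U h1 h2 h3 h4 h5 X V hT
  have h : NM U := ⟨h1, h2, cpl_of_sInter h3, h4, h5⟩
  have hG : ∀ W : Ultrafilter X, (∃ n : ℕ, RKEquiv W (fubiniPow U n)) ↔ Good U W := by
    intro W
    simp only [fubiniPow_eq]
    rfl
  by_cases hV : Good U V
  · exact Or.inl ((hG V).2 hV)
  · obtain ⟨W, p, hW, ht, hb⟩ := exists_tree h ((tukeyLE_iff U V).1 hT) hV
    exact Or.inr ⟨W, p, hW, fun l => ⟨(tukeyLE_iff U _).2 (ht.tk l),
      fun h' => hb l ((hG _).1 h'), ht.sum l, ht.disc l⟩⟩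

end Pool.Agent.Results.MP_491cc4_lc.Dichotomy
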