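import Pool.Agent.Lib.MP_491cc4_lc.Sat

set_option autoImplicit false

namespace Pool.Agent.Results.MP_491cc4_lc.SaturatedFilter

open Pool.Agent.Lib.MP_491cc4_lc

/-- Tukey order on filters: a monotone map from `W` to `V` with cofinal image. -/
def TukeyLE {X Y : Type} (V : Filter X) (W : Filter Y) : Prop :=
  ∃ f : Set Y → Set X, (∀ A ∈ W, f A ∈ V) ∧ (∀ A ∈ W, ∀ B ∈ W, B ⊆ A → f B ⊆ f A) ∧
    ∀ C ∈ V, ∃ A ∈ W, f A ⊆ C

/-- Rudin-Keisler equivalence. -/
def RKEquiv {X Y : Type} (V : Ultrafilter X) (W : Ultrafilter Y) : Prop :=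
  (∃ g : Y → X, Ultrafilter.map g W = V) ∧ ∃ h : X → Y, Ultrafilter.map h V = W

/-- Fubini powers, on lists of length `n`. -/
noncomputable def fubiniPow {K : Type} (U : Ultrafilter K) : ℕ → Ultrafilter (List K)
  | 0 => pure []
  | n + 1 => U.bind (fun a => Ultrafilter.map (List.cons a) (fubiniPow U n))

/-- `x` has cofinality `ω`. -/
def CofOmega {K : Type} [LinearOrder K] (x : K) : Prop :=
  ∃ c : ℕ → K, StrictMono c ∧ (∀ n, c n < x) ∧ ∀ y < x, ∃ n, y < c n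

/-- Closed unbounded sets. -/
def IsClub {K : Type} [LinearOrder K] (C : Set K) : Prop :=
  (∀ a, ∃ e ∈ C, a < e) ∧ ∀ y, (∃ z, z < y) → (∀ z < y, ∃ e ∈ C, z < e ∧ e < y) → y ∈ C

/-- Proper filters containing all tails and closed under diagonal intersections. -/
def IsNormalFilter {K : Type} [LinearOrder K] (F : Filter K) : Prop :=
  ∅ ∉ F ∧ (∀ a, Set.Ioi a ∈ F) ∧
    ∀ A : K → Set K, (∀ a, A a ∈ F) → {x | ∀ a < x, x ∈ A a} ∈ F

/-- `κ⁺`-saturation: a family of positive sets with pairwise null intersections has size at most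
`κ`. -/
def IsSaturated {K : Type} (F : Filter K) : Prop :=
  ∀ 𝒜 : Set (Set K), (∀ A ∈ 𝒜, Aᶜ ∉ F) → (∀ A ∈ 𝒜, ∀ B ∈ 𝒜, A ≠ B → (A ∩ B)ᶜ ∈ F) →
    Cardinal.mk 𝒜 ≤ Cardinal.mk K

/-- A filter concentrating on every interval `(a, x)` and containing no countable set. -/
def IsUniformAt {K : Type} [LinearOrder K] (x : K) (G : Filter K) : Prop :=
  (∀ a < x, Set.Ioo a x ∈ G) ∧ ∀ s ∈ G, ¬ s.Countable

/-- The principle diamond-star on the points of cofinality `ω`. -/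
def DiamondStarCofOmega (K : Type) [LinearOrder K] : Prop :=
  ∃ 𝒜 : K → Set (Set K), (∀ x, Cardinal.mk (𝒜 x) ≤ Cardinal.mk (Set.Iio x)) ∧
    ∀ B : Set K, ∃ C, IsClub C ∧ ∀ x ∈ C, CofOmega x → B ∩ Set.Iio x ∈ 𝒜 x

theorem fubiniPow_eq {K : Type} (U : Ultrafilter K) (n : ℕ) : fubiniPow U n = Pw U n := by
  induction n with
  | zero => rfl
  | succ n ih => rw [Pw_succ, fubiniPow, ih]

theorem tukeyLE_iff {K X : Type} (U : Ultrafilter K) (V : Ultrafilter X) :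
    TukeyLE (V : Filter X) (U : Filter K) ↔ Tk U V := by
  classical
  constructor
  · rintro ⟨f, h1, h2, h3⟩
    refine ⟨fun B => if B ∈ U then f B else ∅, ?_, ?_, ?_⟩
    · intro A B hAB
      by_cases hA : A ∈ U
      · have hB : B ∈ U := Filter.mem_of_superset hA hAB
        simp only [hA, hB, if_true]
        exact h2 B hB A hA hAB
      · simp only [hA, if_false]
        exact Set.empty_subset _
    · intro B hB
      simp only [hB, if_true]
      exact h1 B hB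
    · intro A hA
      obtain ⟨B, hB, hBA⟩ := h3 A hA
      have hB' : B ∈ U := hB
      exact ⟨B, hB', by simpa only [hB', if_true] using hBA⟩
  · rintro ⟨f, hf⟩
    exact ⟨f, hf.mem, fun A _ B _ hBA => hf.mono B A hBA, hf.cof⟩

theorem result :
    ∀ (K : Type) [LinearOrder K] [WellFoundedLT K] (U : Ultrafilter K),
      Cardinal.aleph0 < Cardinal.mk K →
      (∀ x : K, Cardinal.mk (Set.Iio x) < Cardinal.mk K) →
      (∀ S : Set (Set K), Cardinal.mk S < Cardinal.mk K →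
          (∀ s ∈ S, s ∈ U) → ⋂₀ S ∈ U) →
      (∀ s : Set K, s ∈ U → Cardinal.mk s = Cardinal.mk K) →
      (∀ f : K → K, {x | f x < x} ∈ U → ∃ y : K, {x | f x = y} ∈ U) →
      ∀ (X : Type) (V : Ultrafilter X), TukeyLE (V : Filter X) (U : Filter K) →
        ((¬ ∃ n : ℕ, RKEquiv V (fubiniPow U n)) ↔
          ∃ (I : Type) (W : I → Ultrafilter K) (F : Filter K),
            Cardinal.mk I ≤ Cardinal.mk K ∧ (∀ Y, Y ∈ F ↔ ∀ i, Y ∈ W i) ∧
            (∃ (i : I) (g : X → K), Ultrafilter.map g V = W i) ∧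
            (∀ i, TukeyLE (W i : Filter K) (U : Filter K)) ∧ TukeyLE F (U : Filter K) ∧
            IsNormalFilter F ∧ {x | CofOmega x} ∈ F ∧ IsSaturated F ∧
            (∀ G : K → Filter K, ∃ A ∈ U, {x | IsUniformAt x (G x) → A ∉ G x} ∈ F) ∧
            ¬ DiamondStarCofOmega K) := by
  intro K _ _ U h1 h2 h3 h4 h5 X V hT
  have h : NM U := ⟨h1, h2, cpl_of_sInter h3, h4, h5⟩
  have hG : (∃ n : ℕ, RKEquiv V (fubiniPow U n)) ↔ Good U V := by
    simp only [fubiniPow_eq]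
    rfl
  rw [hG]
  constructor
  · intro hV
    obtain ⟨W, p, hW, ht, _⟩ := exists_tree h ((tukeyLE_iff U V).1 hT) hV
    have hnf := ht.nf h
    have hcof : {x | CofOmega x} ∈ ⨆ l, (pr W p l : Filter K) :=
      Filter.mem_iSup.2 (fun l => ht.cof h l)
    refine ⟨List K, pr W p, ⨆ l, (pr W p l : Filter K), h.mk_list, fun Y => Filter.mem_iSup,
      ⟨[], top p [], by rw [← hW]; rfl⟩,
      fun l => (tukeyLE_iff U _).2 ((ht.tk l).map (top p l)), ?_,
      ⟨Filter.empty_mem_iff_bot.not.2 hnf.ne.ne, hnf.tail,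
        fun A hA => hnf.diag (fun a x => x ∈ A a) hA⟩, hcof,
      fun 𝒜 hA hB => (sat_of_iSup _ 𝒜 hA hB).trans h.mk_list, ht.nolimit h, ?_⟩
    · obtain ⟨f, hf1, hf2, hf3⟩ := ht.tukey h
      exact ⟨f, hf2, fun A _ B _ hBA => hf1 B A hBA, hf3⟩
    · rintro ⟨𝒜, hA1, hA2⟩
      obtain ⟨B, hB⟩ := no_guess h.mk_list h.unc.le _ hnf 𝒜 hA1
      obtain ⟨C, hC1, hC2⟩ := hA2 B
      refine hB ?_
      filter_upwards [hnf.club hC1, hcof] with x hx1 hx2 using hC2 x hx1 hx2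
  · rintro ⟨I, W, F, _, hF, ⟨i, g, hg⟩, _, _, ⟨hn1, hn2, hn3⟩, hc, _⟩ ⟨n, ⟨f, hf⟩, _⟩
    have hnf : NF F := ⟨⟨fun hb => hn1 (Filter.empty_mem_iff_bot.2 hb)⟩, hn2,
      fun q hq => hn3 (fun a => {x | q a x}) hq⟩
    have key : ∀ Y ∈ F, ∀ᶠ l in Pw U n, g (f l) ∈ Y := by
      intro Y hY
      have := (hF Y).1 hY i
      rw [← hg, ← hf] at this
      exact this
    obtain ⟨C, hC1, hC2⟩ := pw_not_club h n (fun l => g (f l)) (key _ hc)
    obtain ⟨l, hl1, hl2⟩ := (hC2.and (key C (hnf.club hC1))).exists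
    exact hl1 hl2

end Pool.Agent.Results.MP_491cc4_lc.SaturatedFilter
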